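import Pool.Agent.Run7.h747.HU.Stm

/-!
# Project HU (helper747), pieces ZERO and HIT: basic facts on local characters
-/

set_option autoImplicit false

namespace Run7.h576.HU

open Run7.h747.HU

/-! ### signs -/

theorem usq (u : ℤˣ) : u * u = 1 := by
  rcases Int.units_eq_one_or u with h | h <;> subst h <;> decide

theorem uinv {u v : ℤˣ} (h : u * v = 1) : u = v := by
  rcases Int.units_eq_one_or u with hu | hu <;> rcases Int.units_eq_one_or v with hv | hv <;>
    subst hu <;> subst hv <;> first | rfl | (exfalso; revert h; decide)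

theorem uinj {u v w : ℤˣ} (h : u * v = u * w) : v = w := mul_left_cancel h

theorem umove {u v w : ℤˣ} (h : u * v = w) : v = u * w := by
  rw [← h, ← mul_assoc, usq, one_mul]

/-! ### characters -/

theorem c_one {l : ℕ} {c : ℕ → ℤˣ} (hl : l.Prime) (h : LC l c) : c 1 = 1 := by
  have h1 : ¬ l ∣ 1 := by
    intro hd
    have := Nat.le_of_dvd one_pos hd
    have := hl.two_le
    omega
  have := h.mul 1 1 h1 h1
  rw [mul_one] at this
  have h2 : c 1 * c 1 = c 1 * 1 := by rw [← this, mul_one]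
  exact uinj h2

theorem loc_nd {l : ℕ} {c : ℕ → ℤˣ} {e : ℤˣ} {n : ℕ} (h : ¬ l ∣ n) : loc l c e n = c n := by
  have hn : n ≠ 0 := by
    rintro rfl
    exact h (dvd_zero l)
  obtain ⟨k, rfl⟩ := Nat.exists_eq_succ_of_ne_zero hn
  show locA l c e (k + 1) (k + 1) = c (k + 1)
  have h1 : ¬ (k + 1) % l = 0 := fun h0 => h (Nat.dvd_of_mod_eq_zero h0)
  simp only [locA, h1, if_false]

theorem locA_fuel {l : ℕ} {c : ℕ → ℤˣ} {e : ℤˣ} (hl : 2 ≤ l) :
    ∀ n : ℕ, 1 ≤ n → ∀ k k' : ℕ, n ≤ k → n ≤ k' → locA l c e k n = locA l c e k' n := by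
  intro n
  induction n using Nat.strong_induction_on with
  | _ n ih =>
    intro hn k k' hk hk'
    obtain ⟨k, rfl⟩ : ∃ j, k = j + 1 := ⟨k - 1, by omega⟩
    obtain ⟨k', rfl⟩ : ∃ j, k' = j + 1 := ⟨k' - 1, by omega⟩
    by_cases h0 : n % l = 0
    · simp only [locA, h0, if_true]
      obtain ⟨m, hm⟩ := Nat.dvd_of_mod_eq_zero h0
      have hm1 : 1 ≤ m := by
        rcases Nat.eq_zero_or_pos m with h | h
        · subst h; omega
        · exact h
      have hdiv : n / l = m := by rw [hm]; exact Nat.mul_div_cancel_left m (by omega)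
      have hlt : m < n := by rw [hm]; nlinarith
      rw [hdiv, ih m hlt hm1 k k' (by omega) (by omega)]
    · simp only [locA, h0, if_false]

theorem loc_mul {l : ℕ} {c : ℕ → ℤˣ} {e : ℤˣ} (hl : 2 ≤ l) {n : ℕ} (hn : 1 ≤ n) :
    loc l c e (l * n) = e * loc l c e n := by
  have h1 : 1 ≤ l * n := Nat.one_le_iff_ne_zero.mpr (Nat.mul_ne_zero (by omega) (by omega))
  have hlt : n < l * n := by nlinarith
  obtain ⟨k, hk⟩ : ∃ k, l * n = k + 1 := ⟨l * n - 1, by omega⟩
  show locA l c e (l * n) (l * n) = _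
  have h0 : (l * n) % l = 0 := Nat.mul_mod_right l n
  have hdiv : (l * n) / l = n := Nat.mul_div_cancel_left n (by omega)
  have : locA l c e (l * n) (l * n) = locA l c e (k + 1) (l * n) := by rw [← hk]
  rw [this]
  simp only [locA, h0, if_true, hdiv]
  show e * locA l c e k n = e * locA l c e n n
  rw [locA_fuel hl n hn k n (by omega) le_rfl]

theorem loc_congr {l : ℕ} {c c' : ℕ → ℤˣ} {e : ℤˣ} (hl : 2 ≤ l)
    (h : ∀ n, ¬ l ∣ n → c n = c' n) : ∀ n : ℕ, 1 ≤ n → loc l c e n = loc l c' e n := by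
  intro n
  induction n using Nat.strong_induction_on with
  | _ n ih =>
    intro hn
    by_cases hd : l ∣ n
    · obtain ⟨m, rfl⟩ := hd
      have hm1 : 1 ≤ m := by
        rcases Nat.eq_zero_or_pos m with h | h
        · subst h; omega
        · exact h
      rw [loc_mul hl hm1, loc_mul hl hm1, ih m (by nlinarith) hm1]
    · rw [loc_nd hd, loc_nd hd, h n hd]

theorem loc_tr_one {l : ℕ} {c : ℕ → ℤˣ} (hl : 2 ≤ l) (h : Tr l c) :
    ∀ n : ℕ, 1 ≤ n → loc l c 1 n = 1 := by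
  intro n
  induction n using Nat.strong_induction_on with
  | _ n ih =>
    intro hn
    by_cases hd : l ∣ n
    · obtain ⟨m, rfl⟩ := hd
      have hm1 : 1 ≤ m := by
        rcases Nat.eq_zero_or_pos m with h | h
        · subst h; omega
        · exact h
      rw [loc_mul hl hm1, ih m (by nlinarith) hm1, one_mul]
    · rw [loc_nd hd, h n hd]

/-- the pattern of code `k`: the value `-1` at `i` iff the bit `i` of `k` is `1` -/
def dec (k : ℕ) : Fin 4 → ℤˣ := fun i => if (k / 2 ^ (i : ℕ)) % 2 = 1 then -1 else 1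

/-- `f` has the pattern `k` -/
def HasPat (f : ℕ → ℤˣ) (k : ℕ) : Prop := ∃ n : ℕ, 1 ≤ n ∧ pat f n = dec k

theorem pat_eq_iff (f : ℕ → ℤˣ) (n : ℕ) (v : Fin 4 → ℤˣ) :
    pat f n = v ↔ f n = v 0 ∧ f (n + 1) = v 1 ∧ f (n + 2) = v 2 ∧ f (n + 3) = v 3 := by
  constructor
  · intro h
    exact ⟨congrFun h 0, congrFun h 1, congrFun h 2, congrFun h 3⟩
  · rintro ⟨h0, h1, h2, h3⟩
    funext i
    fin_cases i
    · exact h0
    · exact h1
    · exact h2
    · exact h3

/-- the values at consecutive places of `a / b` -/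
theorem real {l : ℕ} {c : ℕ → ℤˣ} {e : ℤˣ} (hl : l.Prime) (h2 : l ≠ 2) (h : LC l c) {a b : ℕ} (ha : 1 ≤ a)
    (hb : 1 ≤ b) (hab : a + 3 * b < l) :
    ∃ n : ℕ, 1 ≤ n ∧ ∀ i : ℕ, i < 4 → loc l c e (n + i) = c b * c (a + i * b) := by
  have hper : ∀ m n : ℕ, ¬ l ∣ m → m ≡ n [MOD l] → c m = c n := by
    intro m n h1 h3
    apply h.per m n h1
    rw [if_neg h2]
    exact h3
  have hco : Nat.Coprime b l := by
    rw [Nat.coprime_comm]
    apply (Nat.Prime.coprime_iff_not_dvd hl).mpr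
    intro hd
    have := Nat.le_of_dvd (by omega) hd
    omega
  obtain ⟨m, hm⟩ := Nat.exists_mul_mod_eq_one_of_coprime hco (by have := hl.two_le; omega)
  have hm' : b * m ≡ 1 [MOD l] := by
    have h1 : 1 % l = 1 := Nat.mod_eq_of_lt (by have := hl.two_le; omega)
    show b * m % l = 1 % l
    rw [h1]
    exact hm.2
  have hm1 : 1 ≤ m := by
    rcases Nat.eq_zero_or_pos m with h | h
    · subst h
      have := hm.2
      simp at this
    · exact h
  refine ⟨a * m, Nat.one_le_iff_ne_zero.mpr (Nat.mul_ne_zero (by omega) (by omega)), ?_⟩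
  intro i hi
  have key : b * (a * m + i) ≡ a + i * b [MOD l] := by
    have h1 : b * (a * m + i) = a * (b * m) + i * b := by ring
    have h3 : a * (b * m) ≡ a * 1 [MOD l] := hm'.mul_left a
    rw [h1]
    calc a * (b * m) + i * b ≡ a * 1 + i * b [MOD l] := h3.add_right _
      _ = a + i * b := by ring
  have hnd : ¬ l ∣ a + i * b := by
    intro hd
    have h1 := Nat.le_of_dvd (by omega) hd
    have : i * b ≤ 3 * b := Nat.mul_le_mul_right b (by omega)
    omega
  have hnd2 : ¬ l ∣ b * (a * m + i) := by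
    intro hd
    exact hnd ((key.dvd_iff (dvd_refl l)).mp hd)
  have hndn : ¬ l ∣ a * m + i := fun hd => hnd2 (Dvd.dvd.mul_left hd b)
  have hndb : ¬ l ∣ b := fun hd => hnd2 (Dvd.dvd.mul_right hd _)
  rw [loc_nd hndn]
  have h4 : c (b * (a * m + i)) = c (a + i * b) := hper _ _ hnd2 key
  rw [h.mul b (a * m + i) hndb hndn] at h4
  exact umove h4

/-! ### the Legendre characters -/

/-- `1` at the squares modulo `l`, `-1` otherwise -/
def X (l n : ℕ) : ℤˣ := if (List.range l).any (fun x => x * x % l == n % l) then 1 else -1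

theorem X_mod (l n : ℕ) : X l (n % l) = X l n := by
  unfold X
  simp only [Nat.mod_mod]

/-- every unit is a square or `g` times a square -/
def Gen (l g : ℕ) : Prop := ∀ r < l, r ≠ 0 → (X l r = 1 ∧ ∃ x < l, x ≠ 0 ∧ x * x % l = r) ∨
  (X l r = -1 ∧ ∃ x < l, x ≠ 0 ∧ g * (x * x) % l = r)

instance (l g : ℕ) : Decidable (Gen l g) := by
  unfold Gen
  infer_instance

theorem c_mod {l : ℕ} {c : ℕ → ℤˣ} (h2 : l ≠ 2) (h : LC l c) {m n : ℕ} (hm : ¬ l ∣ m) (hmn : m % l = n % l) :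
    c m = c n := by
  apply h.per m n hm
  rw [if_neg h2]
  exact hmn

theorem c_sq {l : ℕ} {c : ℕ → ℤˣ} (h : LC l c) {x : ℕ} (hx : ¬ l ∣ x) : c (x * x) = 1 := by
  rw [h.mul x x hx hx, usq]

theorem eq_X {l g : ℕ} {c : ℕ → ℤˣ} (hl : l.Prime) (h2 : l ≠ 2) (h : LC l c) (hg : Gen l g) (hgl : 0 < g ∧ g < l)
    (ht : ¬ Tr l c) : ∀ n : ℕ, ¬ l ∣ n → c n = X l n := by
  have hpos : 0 < l := hl.pos
  have hgd : ¬ l ∣ g := fun hd => by
    have := Nat.le_of_dvd hgl.1 hd
    omega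
  have key : ∀ n : ℕ, ¬ l ∣ n → (X l n = 1 ∧ c n = 1) ∨ (X l n = -1 ∧ c n = c g) := by
    intro n hn
    have hr : n % l ≠ 0 := fun h0 => hn (Nat.dvd_of_mod_eq_zero h0)
    rcases hg (n % l) (Nat.mod_lt n hpos) hr with ⟨h1, x, hx, hx0, hxx⟩ | ⟨h1, x, hx, hx0, hxx⟩
    · left
      rw [X_mod] at h1
      refine ⟨h1, ?_⟩
      have hxd : ¬ l ∣ x := fun hd => by
        have := Nat.le_of_dvd (by omega) hd
        omega
      rw [c_mod h2 h hn hxx.symm, c_sq h hxd]
    · right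
      rw [X_mod] at h1
      refine ⟨h1, ?_⟩
      have hxd : ¬ l ∣ x := fun hd => by
        have := Nat.le_of_dvd (by omega) hd
        omega
      have hxxd : ¬ l ∣ x * x := fun hd => by
        rcases (Nat.Prime.dvd_mul hl).mp hd with h | h <;> exact hxd h
      rw [c_mod h2 h hn hxx.symm, h.mul g (x * x) hgd hxxd, c_sq h hxd, mul_one]
  have hcg : c g = -1 := by
    rcases Int.units_eq_one_or (c g) with h1 | h1
    · exfalso
      apply ht
      intro n hn
      rcases key n hn with ⟨_, h3⟩ | ⟨_, h3⟩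
      · exact h3
      · rw [h3, h1]
    · exact h1
  intro n hn
  rcases key n hn with ⟨h1, h3⟩ | ⟨h1, h3⟩
  · rw [h1, h3]
  · rw [h1, h3, hcg]

/-- nonsquares -/
def gg (l : ℕ) : ℕ := if l = 7 ∨ l = 17 ∨ l = 41 then 3 else 2

set_option maxRecDepth 100000 in
theorem gen_ok : ∀ l ∈ [3, 5, 7, 11, 13, 17, 41, 53], Gen l (gg l) ∧ (0 < gg l ∧ gg l < l) := by
  decide

theorem eq_X' {l : ℕ} {c : ℕ → ℤˣ} (hl : l.Prime) (hm : l ∈ [3, 5, 7, 11, 13, 17, 41, 53]) (h : LC l c)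
    (ht : ¬ Tr l c) : ∀ n : ℕ, ¬ l ∣ n → c n = X l n := by
  have h2 : l ≠ 2 := by
    rintro rfl
    revert hm
    decide
  exact eq_X hl h2 h (gen_ok l hm).1 (gen_ok l hm).2 ht

/-! ### the prime two -/

/-- the characters modulo eight -/
def Y (a b : ℤˣ) (n : ℕ) : ℤˣ := if n % 8 = 3 then a else if n % 8 = 5 then b else if n % 8 = 7 then a * b else 1

theorem eq_Y {c : ℕ → ℤˣ} (h : LC 2 c) : ∀ n : ℕ, ¬ 2 ∣ n → c n = Y (c 3) (c 5) n := by
  have per : ∀ m n : ℕ, ¬ 2 ∣ m → m % 8 = n % 8 → c m = c n := by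
    intro m n hm hmn
    apply h.per m n hm
    rw [if_pos rfl]
    exact hmn
  have h1 : c 1 = 1 := c_one Nat.prime_two h
  have h7 : c 7 = c 3 * c 5 := by
    rw [← h.mul 3 5 (by decide) (by decide)]
    exact per 7 15 (by decide) (by decide)
  intro n hn
  have hr : n % 8 = 1 ∨ n % 8 = 3 ∨ n % 8 = 5 ∨ n % 8 = 7 := by omega
  rcases hr with hr | hr | hr | hr
  · rw [per n 1 hn hr, h1]
    simp [Y, hr]
  · rw [per n 3 hn hr]
    simp [Y, hr]
  · rw [per n 5 hn hr]
    simp [Y, hr]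
  · rw [per n 7 hn hr, h7]
    simp [Y, hr]

theorem tr_iff_Y {c : ℕ → ℤˣ} (h : LC 2 c) (h3 : c 3 = 1) (h5 : c 5 = 1) : Tr 2 c := by
  intro n hn
  rw [eq_Y h n hn, h3, h5]
  unfold Y
  split_ifs <;> rfl

end Run7.h576.HU
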