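import Pool.Agent.Run7.h576.HU.Base

/-!
# Project HU (helper747), piece HIT: a special and a nontrivial non-special local character have a common pattern
-/

set_option autoImplicit false

namespace Run7.h576.HU

open Run7.h747.HU

/-- pattern codes of the special local characters -/
def AL : List (List ℕ) :=
  [[1, 2, 4, 5, 8, 10],
   [1, 2, 3, 4, 6, 7, 8, 9, 11, 12, 13, 14],
   [2, 4, 5, 6, 9, 11, 12, 13],
   [1, 3, 5, 6, 8, 10, 11, 12, 13],
   [1, 3, 4, 6, 7, 8, 9, 10, 13, 14],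
   [1, 2, 4, 5, 6, 7, 8, 9, 11, 12, 13, 14],
   [1, 2, 3, 4, 5, 7, 8, 9, 10, 12, 14, 15],
   [1, 2, 3, 4, 5, 6, 7, 8, 9, 10, 11, 12, 13, 14, 15]]

theorem of_table {f : ℕ → ℤˣ} (T : List (ℕ × ℕ)) (h : ∀ t ∈ T, 1 ≤ t.2 ∧ pat f t.2 = dec t.1) :
    ∀ k ∈ T.map Prod.fst, HasPat f k := by
  intro k hk
  obtain ⟨t, ht, rfl⟩ := List.mem_map.mp hk
  exact ⟨t.2, (h t ht).1, (h t ht).2⟩

theorem hasPat_congr {l : ℕ} {c c' : ℕ → ℤˣ} {e : ℤˣ} (hl : 2 ≤ l) (h : ∀ n, ¬ l ∣ n → c n = c' n) {k : ℕ}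
    (hk : HasPat (loc l c' e) k) : HasPat (loc l c e) k := by
  obtain ⟨n, hn, hp⟩ := hk
  refine ⟨n, hn, ?_⟩
  rw [← hp]
  funext i
  exact loc_congr hl h (n + i) (by omega)

set_option maxRecDepth 100000 in
theorem sp_2a_m : ∀ k ∈ ([1, 2, 4, 5, 8, 10] : List ℕ), HasPat (loc 2 (fun _ => 1) (-1)) k :=
  of_table [(1, 2), (2, 1), (4, 4), (5, 6), (8, 3), (10, 5)] (by decide)

set_option maxRecDepth 100000 in
theorem sp_2b_p : ∀ k ∈ ([1, 2, 3, 4, 6, 7, 8, 9, 11, 12, 13, 14] : List ℕ), HasPat (loc 2 (Y (-1) 1) 1) k :=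
  of_table [(1, 7), (2, 2), (3, 6), (4, 1), (6, 5), (7, 22), (8, 8), (9, 3), (11, 11), (12, 4), (13, 12), (14, 21)] (by decide)

set_option maxRecDepth 100000 in
theorem sp_2b_m : ∀ k ∈ ([1, 2, 3, 4, 6, 7, 8, 9, 11, 12, 13, 14] : List ℕ), HasPat (loc 2 (Y (-1) 1) (-1)) k :=
  of_table [(1, 3), (2, 14), (3, 2), (4, 13), (6, 1), (7, 10), (8, 4), (9, 12), (11, 7), (12, 5), (13, 8), (14, 9)] (by decide)

set_option maxRecDepth 100000 in
theorem sp_3_p : ∀ k ∈ ([2, 4, 5, 6, 9, 11, 12, 13] : List ℕ), HasPat (loc 3 (X 3) 1) k :=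
  of_table [(2, 1), (4, 9), (5, 6), (6, 4), (9, 2), (11, 5), (12, 3), (13, 15)] (by decide)

set_option maxRecDepth 100000 in
theorem sp_3_m : ∀ k ∈ ([2, 4, 5, 6, 9, 11, 12, 13] : List ℕ), HasPat (loc 3 (X 3) (-1)) k :=
  of_table [(2, 4), (4, 6), (5, 3), (6, 1), (9, 5), (11, 2), (12, 9), (13, 18)] (by decide)

set_option maxRecDepth 100000 in
theorem sp_5_p : ∀ k ∈ ([1, 3, 5, 6, 8, 10, 11, 12, 13] : List ℕ), HasPat (loc 5 (X 5) 1) k :=
  of_table [(1, 3), (3, 2), (5, 8), (6, 1), (8, 4), (10, 9), (11, 7), (12, 5), (13, 10)] (by decide)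

set_option maxRecDepth 100000 in
theorem sp_5_m : ∀ k ∈ ([1, 3, 5, 6, 8, 10, 11, 12, 13] : List ℕ), HasPat (loc 5 (X 5) (-1)) k :=
  of_table [(1, 8), (3, 7), (5, 3), (6, 1), (8, 9), (10, 4), (11, 2), (12, 10), (13, 5)] (by decide)

set_option maxRecDepth 100000 in
theorem sp_7_p : ∀ k ∈ ([1, 3, 4, 6, 7, 8, 9, 10, 13, 14] : List ℕ), HasPat (loc 7 (X 7) 1) k :=
  of_table [(1, 6), (3, 5), (4, 1), (6, 4), (7, 19), (8, 7), (9, 21), (10, 2), (13, 3), (14, 18)] (by decide)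

set_option maxRecDepth 100000 in
theorem sp_7_m : ∀ k ∈ ([1, 3, 4, 6, 7, 8, 9, 10, 13, 14] : List ℕ), HasPat (loc 7 (X 7) (-1)) k :=
  of_table [(1, 20), (3, 6), (4, 1), (6, 18), (7, 5), (8, 21), (9, 7), (10, 2), (13, 3), (14, 4)] (by decide)

set_option maxRecDepth 100000 in
theorem sp_11_p : ∀ k ∈ ([1, 2, 4, 5, 6, 7, 8, 9, 11, 12, 13, 14] : List ℕ), HasPat (loc 11 (X 11) 1) k :=
  of_table [(1, 2), (2, 1), (4, 11), (5, 8), (6, 20), (7, 6), (8, 3), (9, 10), (11, 7), (12, 4), (13, 19), (14, 5)] (by decide)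

set_option maxRecDepth 100000 in
theorem sp_11_m : ∀ k ∈ ([1, 2, 4, 5, 6, 7, 8, 9, 11, 12, 13, 14] : List ℕ), HasPat (loc 11 (X 11) (-1)) k :=
  of_table [(1, 2), (2, 1), (4, 22), (5, 11), (6, 9), (7, 6), (8, 3), (9, 21), (11, 7), (12, 4), (13, 8), (14, 5)] (by decide)

set_option maxRecDepth 100000 in
theorem sp_13_p : ∀ k ∈ ([1, 2, 3, 4, 5, 7, 8, 9, 10, 12, 14, 15] : List ℕ), HasPat (loc 13 (X 13) 1) k :=
  of_table [(1, 11), (2, 1), (3, 7), (4, 9), (5, 24), (7, 6), (8, 12), (9, 2), (10, 23), (12, 3), (14, 4), (15, 5)] (by decide)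

set_option maxRecDepth 100000 in
theorem sp_13_m : ∀ k ∈ ([1, 2, 3, 4, 5, 7, 8, 9, 10, 12, 14, 15] : List ℕ), HasPat (loc 13 (X 13) (-1)) k :=
  of_table [(1, 24), (2, 1), (3, 7), (4, 9), (5, 11), (7, 6), (8, 25), (9, 2), (10, 10), (12, 3), (14, 4), (15, 5)] (by decide)

set_option maxRecDepth 100000 in
theorem sp_53_p : ∀ k ∈ ([1, 2, 3, 4, 5, 6, 7, 8, 9, 10, 11, 12, 13, 14, 15] : List ℕ), HasPat (loc 53 (X 53) 1) k :=
  of_table [(1, 8), (2, 4), (3, 22), (4, 6), (5, 3), (6, 1), (7, 21), (8, 9), (9, 5), (10, 11), (11, 2), (12, 16), (13, 48), (14, 17), (15, 18)] (by decide)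

set_option maxRecDepth 100000 in
theorem sp_53_m : ∀ k ∈ ([1, 2, 3, 4, 5, 6, 7, 8, 9, 10, 11, 12, 13, 14, 15] : List ℕ), HasPat (loc 53 (X 53) (-1)) k :=
  of_table [(1, 8), (2, 4), (3, 22), (4, 6), (5, 3), (6, 1), (7, 21), (8, 9), (9, 5), (10, 11), (11, 2), (12, 16), (13, 48), (14, 17), (15, 18)] (by decide)

/-- the patterns of the special local characters -/
theorem special_pats {s : ℕ} {c : ℕ → ℤˣ} {e : ℤˣ} (hs : s.Prime) (h : LC s c) (hsp : Special s c e) :
    ∃ K ∈ AL, ∀ k ∈ K, HasPat (loc s c e) k := by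
  rcases hsp with ⟨rfl, ht, he⟩ | ⟨rfl, h3, h5⟩ | ⟨hm, ht⟩
  · have hc : ∀ n, ¬ 2 ∣ n → c n = (fun _ => 1 : ℕ → ℤˣ) n := fun n hn => ht n hn
    subst he
    exact ⟨AL[0], by simp [AL], fun k hk => hasPat_congr le_rfl hc (sp_2a_m k hk)⟩
  · have hc := eq_Y h
    rw [h3, h5] at hc
    refine ⟨AL[1], by simp [AL], fun k hk => hasPat_congr le_rfl hc ?_⟩
    rcases Int.units_eq_one_or e with he | he <;> subst he
    · exact sp_2b_p k hk
    · exact sp_2b_m k hk
  · have hm' : s ∈ [3, 5, 7, 11, 13, 17, 41, 53] := by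
      simp only [Finset.mem_insert, Finset.mem_singleton] at hm
      simp only [List.mem_cons, List.not_mem_nil, or_false]
      omega
    have hX := eq_X' hs hm' h ht
    simp only [Finset.mem_insert, Finset.mem_singleton] at hm
    rcases hm with rfl | rfl | rfl | rfl | rfl | rfl
    · refine ⟨AL[2], by simp [AL], fun k hk => hasPat_congr (by norm_num) hX ?_⟩
      rcases Int.units_eq_one_or e with he | he <;> subst he
      · exact sp_3_p k hk
      · exact sp_3_m k hk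
    · refine ⟨AL[3], by simp [AL], fun k hk => hasPat_congr (by norm_num) hX ?_⟩
      rcases Int.units_eq_one_or e with he | he <;> subst he
      · exact sp_5_p k hk
      · exact sp_5_m k hk
    · refine ⟨AL[4], by simp [AL], fun k hk => hasPat_congr (by norm_num) hX ?_⟩
      rcases Int.units_eq_one_or e with he | he <;> subst he
      · exact sp_7_p k hk
      · exact sp_7_m k hk
    · refine ⟨AL[5], by simp [AL], fun k hk => hasPat_congr (by norm_num) hX ?_⟩
      rcases Int.units_eq_one_or e with he | he <;> subst he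
      · exact sp_11_p k hk
      · exact sp_11_m k hk
    · refine ⟨AL[6], by simp [AL], fun k hk => hasPat_congr (by norm_num) hX ?_⟩
      rcases Int.units_eq_one_or e with he | he <;> subst he
      · exact sp_13_p k hk
      · exact sp_13_m k hk
    · refine ⟨AL[7], by simp [AL], fun k hk => hasPat_congr (by norm_num) hX ?_⟩
      rcases Int.units_eq_one_or e with he | he <;> subst he
      · exact sp_53_p k hk
      · exact sp_53_m k hk

theorem al_84 : ∀ K ∈ AL, 8 ∈ K ∨ 4 ∈ K := by decide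

theorem meets_of_84 {f : ℕ → ℤˣ} (h8 : HasPat f 8) (h4 : HasPat f 4) : ∀ K ∈ AL, ∃ k ∈ K, HasPat f k := by
  intro K hK
  rcases al_84 K hK with h | h
  · exact ⟨8, h, h8⟩
  · exact ⟨4, h, h4⟩

/-- values at `1, ..., 10` -/
def V (u2 u3 u5 u7 : ℤˣ) (n : ℕ) : ℤˣ :=
  if n = 2 then u2 else if n = 3 then u3 else if n = 5 then u5 else if n = 6 then u2 * u3 else if n = 7 then u7 else
    if n = 8 then u2 else if n = 10 then u2 * u5 else 1

set_option maxRecDepth 100000 in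
theorem small_dec : ∀ u2 u3 u5 u7 : ℤˣ, ¬ (u2 = 1 ∧ u3 = 1) → ∀ K ∈ AL, ∃ k ∈ K, ∃ b ∈ [1, 2, 3], ∃ a ∈ List.range 8,
    1 ≤ a ∧ a + 3 * b ≤ 10 ∧ ∀ i < 4, V u2 u3 u5 u7 b * V u2 u3 u5 u7 (a + i * b) = (if (k / 2 ^ i) % 2 = 1 then -1 else 1) := by
  decide


theorem eq_V {l : ℕ} {c : ℕ → ℤˣ} (hl : l.Prime) (h : LC l c) (h17 : 17 ≤ l) :
    ∀ n : ℕ, 1 ≤ n → n ≤ 10 → c n = V (c 2) (c 3) (c 5) (c 7) n := by
  have hnd : ∀ m : ℕ, 1 ≤ m → m ≤ 10 → ¬ l ∣ m := by
    intro m h1 h2 hd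
    have := Nat.le_of_dvd (by omega) hd
    omega
  have h1 : c 1 = 1 := c_one hl h
  have m22 : c 4 = c 2 * c 2 := h.mul 2 2 (hnd 2 (by norm_num) (by norm_num)) (hnd 2 (by norm_num) (by norm_num))
  have m23 : c 6 = c 2 * c 3 := h.mul 2 3 (hnd 2 (by norm_num) (by norm_num)) (hnd 3 (by norm_num) (by norm_num))
  have m24 : c 8 = c 2 * c 4 := h.mul 2 4 (hnd 2 (by norm_num) (by norm_num)) (hnd 4 (by norm_num) (by norm_num))
  have m33 : c 9 = c 3 * c 3 := h.mul 3 3 (hnd 3 (by norm_num) (by norm_num)) (hnd 3 (by norm_num) (by norm_num))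
  have m25 : c 10 = c 2 * c 5 := h.mul 2 5 (hnd 2 (by norm_num) (by norm_num)) (hnd 5 (by norm_num) (by norm_num))
  intro n hn hn'
  interval_cases n
  · rw [h1]; rfl
  · rfl
  · rfl
  · rw [m22, usq]; rfl
  · rfl
  · rw [m23]; rfl
  · rfl
  · rw [m24, m22, usq, mul_one]; rfl
  · rw [m33, usq]; rfl
  · rw [m25]; rfl

theorem hit_small {l : ℕ} {c : ℕ → ℤˣ} (e : ℤˣ) (hl : l.Prime) (h : LC l c) (h17 : 17 ≤ l)
    (h23 : ¬ (c 2 = 1 ∧ c 3 = 1)) : ∀ K ∈ AL, ∃ k ∈ K, HasPat (loc l c e) k := by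
  intro K hK
  obtain ⟨k, hk, b, hb, a, ha, ha1, hab, hv⟩ := small_dec (c 2) (c 3) (c 5) (c 7) h23 K hK
  have hb1 : 1 ≤ b := by
    simp only [List.mem_cons, List.not_mem_nil, or_false] at hb
    omega
  obtain ⟨n, hn, hr⟩ := real (e := e) hl (by omega) h ha1 hb1 (by omega)
  refine ⟨k, hk, n, hn, ?_⟩
  have hV := eq_V hl h h17
  funext i
  have hi : (i : ℕ) < 4 := i.2
  have h3 : (i : ℕ) * b ≤ 3 * b := Nat.mul_le_mul_right b (by omega)
  show loc l c e (n + i) = dec k i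
  rw [hr i hi, hV b hb1 (by omega), hV (a + i * b) (by omega) (by omega)]
  exact hv i hi

theorem dec8 : dec 8 0 = 1 ∧ dec 8 1 = 1 ∧ dec 8 2 = 1 ∧ dec 8 3 = -1 := by decide

theorem dec4 : dec 4 0 = 1 ∧ dec 4 1 = 1 ∧ dec 4 2 = -1 ∧ dec 4 3 = 1 := by decide

theorem has8 {f : ℕ → ℤˣ} {n : ℕ} (hn : 1 ≤ n) (h0 : f n = 1) (h1 : f (n + 1) = 1) (h2 : f (n + 2) = 1)
    (h3 : f (n + 3) = -1) : HasPat f 8 := by
  refine ⟨n, hn, ?_⟩
  rw [pat_eq_iff, dec8.1, dec8.2.1, dec8.2.2.1, dec8.2.2.2]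
  exact ⟨h0, h1, h2, h3⟩

theorem has4 {f : ℕ → ℤˣ} {n : ℕ} (hn : 1 ≤ n) (h0 : f n = 1) (h1 : f (n + 1) = 1) (h2 : f (n + 2) = -1)
    (h3 : f (n + 3) = 1) : HasPat f 4 := by
  refine ⟨n, hn, ?_⟩
  rw [pat_eq_iff, dec4.1, dec4.2.1, dec4.2.2.1, dec4.2.2.2]
  exact ⟨h0, h1, h2, h3⟩

theorem hit_big {l : ℕ} {c : ℕ → ℤˣ} (e : ℤˣ) (hl : l.Prime) (h : LC l c) (h17 : 17 ≤ l) (ht : ¬ Tr l c)
    (h23 : c 2 = 1 ∧ c 3 = 1) : ∀ K ∈ AL, ∃ k ∈ K, HasPat (loc l c e) k := by
  classical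
  have hnd : ∀ m : ℕ, 1 ≤ m → m < l → ¬ l ∣ m := by
    intro m h1 h2 hd
    have := Nat.le_of_dvd (by omega) hd
    omega
  have hex : ∃ r : ℕ, 1 ≤ r ∧ r < l ∧ c r = -1 := by
    by_contra hno
    apply ht
    intro n hn
    have hr0 : n % l ≠ 0 := fun h0 => hn (Nat.dvd_of_mod_eq_zero h0)
    have hrl : n % l < l := Nat.mod_lt n (by omega)
    rcases Int.units_eq_one_or (c n) with h1 | h1
    · exact h1
    · exfalso
      apply hno
      refine ⟨n % l, by omega, hrl, ?_⟩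
      rw [← h1]
      exact c_mod (by omega) h (hnd _ (by omega) hrl) (Nat.mod_mod n l)
  obtain ⟨hr1, hrl, hcr⟩ := Nat.find_spec hex
  set r := Nat.find hex with hrdef
  have hmin : ∀ m : ℕ, 1 ≤ m → m < r → c m = 1 := by
    intro m h1 h2
    rcases Int.units_eq_one_or (c m) with h3 | h3
    · exact h3
    · exact absurd ⟨h1, by omega, h3⟩ (Nat.find_min hex h2)
  have hc1 : c 1 = 1 := c_one hl h
  have hne : (1 : ℤˣ) ≠ -1 := by decide
  have hr_odd : r % 2 = 1 := by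
    rcases Nat.mod_two_eq_zero_or_one r with h0 | h0
    · exfalso
      obtain ⟨q, hq⟩ : ∃ q, r = 2 * q := ⟨r / 2, by omega⟩
      have : c r = c 2 * c q := by
        rw [hq]
        exact h.mul 2 q (hnd 2 (by norm_num) (by omega)) (hnd q (by omega) (by omega))
      rw [h23.1, hmin q (by omega) (by omega), hcr] at this
      exact hne (by rw [this, one_mul])
    · exact h0
  have hr5 : 5 ≤ r := by
    by_contra hlt
    have h13 : r = 1 ∨ r = 3 := by omega
    rcases h13 with h0 | h0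
    · rw [h0, hc1] at hcr
      exact hne hcr
    · rw [h0, h23.2] at hcr
      exact hne hcr
  have hl_odd : l % 2 = 1 := by
    rcases hl.eq_two_or_odd with h0 | h0 <;> omega
  have hr1l : r + 1 < l := by omega
  have hcr1 : c (r + 1) = 1 := by
    obtain ⟨q, hq⟩ : ∃ q, r + 1 = 2 * q := ⟨(r + 1) / 2, by omega⟩
    rw [hq, h.mul 2 q (hnd 2 (by norm_num) (by omega)) (hnd q (by omega) (by omega)), h23.1,
      hmin q (by omega) (by omega), one_mul]
  have hv : ∀ m : ℕ, 1 ≤ m → m < r → loc l c e m = 1 := by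
    intro m h1 h2
    rw [loc_nd (hnd m h1 (by omega)), hmin m h1 h2]
  have hvr : loc l c e r = -1 := by rw [loc_nd (hnd r (by omega) hrl), hcr]
  have hvr1 : loc l c e (r + 1) = 1 := by rw [loc_nd (hnd (r + 1) (by omega) hr1l), hcr1]
  refine meets_of_84 ?_ ?_
  · refine has8 (n := r - 3) (by omega) (hv _ (by omega) (by omega)) (hv _ (by omega) (by omega))
      (hv _ (by omega) (by omega)) ?_
    rw [show r - 3 + 3 = r by omega]
    exact hvr
  · refine has4 (n := r - 2) (by omega) (hv _ (by omega) (by omega)) (hv _ (by omega) (by omega)) ?_ ?_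
    · rw [show r - 2 + 2 = r by omega]
      exact hvr
    · rw [show r - 2 + 3 = r + 1 by omega]
      exact hvr1

/-- a nontrivial non-special local character meets every pattern set of a special one -/
theorem nonspecial_meets {l : ℕ} {c : ℕ → ℤˣ} {e : ℤˣ} (hl : l.Prime) (h : LC l c) (hs : ¬ Special l c e)
    (hnt : ¬ (Tr l c ∧ e = 1)) : ∀ K ∈ AL, ∃ k ∈ K, HasPat (loc l c e) k := by
  by_cases ht : Tr l c
  · have he : e = -1 := by
      rcases Int.units_eq_one_or e with he | he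
      · exact absurd ⟨ht, he⟩ hnt
      · exact he
    have hl2 : l ≠ 2 := by
      rintro rfl
      exact hs (Or.inl ⟨rfl, ht, he⟩)
    have hge : 2 ≤ l := hl.two_le
    subst he
    by_cases h3 : l = 3
    · subst h3
      have hc : ∀ n, ¬ 3 ∣ n → c n = (fun _ => 1 : ℕ → ℤˣ) n := fun n hn => ht n hn
      refine meets_of_84 (hasPat_congr (by norm_num) hc ?_) (hasPat_congr (by norm_num) hc ?_)
      · exact ⟨9, by norm_num, by decide⟩
      · exact ⟨1, by norm_num, by decide⟩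
    · have h5 : 5 ≤ l := by
        have h4 : l ≠ 4 := by
          rintro rfl
          exact absurd hl (by norm_num)
        omega
      have hnd : ∀ m : ℕ, 1 ≤ m → m < l → ¬ l ∣ m := by
        intro m h1 h2 hd
        have := Nat.le_of_dvd (by omega) hd
        omega
      have hv : ∀ m : ℕ, 1 ≤ m → m < l → loc l c (-1) m = 1 := by
        intro m h1 h2
        rw [loc_nd (hnd m h1 h2), ht m (hnd m h1 h2)]
      have hvl : loc l c (-1) l = -1 := by
        have := loc_mul (c := c) (e := -1) hge (n := 1) le_rfl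
        rw [mul_one] at this
        rw [this, hv 1 le_rfl (by omega), mul_one]
      have hvl1 : loc l c (-1) (l + 1) = 1 := by
        have hd : ¬ l ∣ l + 1 := by
          intro hd
          have : l ∣ 1 := (Nat.dvd_add_right (dvd_refl l)).mp hd
          have := Nat.le_of_dvd one_pos this
          omega
        rw [loc_nd hd, ht _ hd]
      refine meets_of_84 ?_ ?_
      · refine has8 (n := l - 3) (by omega) (hv _ (by omega) (by omega)) (hv _ (by omega) (by omega))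
          (hv _ (by omega) (by omega)) ?_
        rw [show l - 3 + 3 = l by omega]
        exact hvl
      · refine has4 (n := l - 2) (by omega) (hv _ (by omega) (by omega)) (hv _ (by omega) (by omega)) ?_ ?_
        · rw [show l - 2 + 2 = l by omega]
          exact hvl
        · rw [show l - 2 + 3 = l + 1 by omega]
          exact hvl1
  · by_cases h2 : l = 2
    · subst h2
      have hY := eq_Y h
      have h5 : c 5 = -1 := by
        rcases Int.units_eq_one_or (c 5) with h5 | h5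
        · exfalso
          rcases Int.units_eq_one_or (c 3) with h3 | h3
          · exact ht (tr_iff_Y h h3 h5)
          · exact hs (Or.inr (Or.inl ⟨rfl, h3, h5⟩))
        · exact h5
      rw [h5] at hY
      rcases Int.units_eq_one_or (c 3) with h3 | h3 <;> rw [h3] at hY <;>
        rcases Int.units_eq_one_or e with he | he <;> subst he
      · refine meets_of_84 (hasPat_congr (by norm_num) hY ?_) (hasPat_congr (by norm_num) hY ?_)
        · exact ⟨2, by norm_num, by decide⟩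
        · exact ⟨3, by norm_num, by decide⟩
      · refine meets_of_84 (hasPat_congr (by norm_num) hY ?_) (hasPat_congr (by norm_num) hY ?_)
        · exact ⟨10, by norm_num, by decide⟩
        · exact ⟨11, by norm_num, by decide⟩
      · refine meets_of_84 (hasPat_congr (by norm_num) hY ?_) (hasPat_congr (by norm_num) hY ?_)
        · exact ⟨7, by norm_num, by decide⟩
        · exact ⟨1, by norm_num, by decide⟩
      · refine meets_of_84 (hasPat_congr (by norm_num) hY ?_) (hasPat_congr (by norm_num) hY ?_)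
        · exact ⟨15, by norm_num, by decide⟩
        · exact ⟨6, by norm_num, by decide⟩
    · have hsp : l ∉ ({3, 5, 7, 11, 13, 53} : Finset ℕ) := fun hm => hs (Or.inr (Or.inr ⟨hm, ht⟩))
      have hl17 : 17 ≤ l := by
        have hge : 2 ≤ l := hl.two_le
        by_contra hlt
        have hlt' : l < 17 := by omega
        simp only [Finset.mem_insert, Finset.mem_singleton, not_or] at hsp
        interval_cases l <;> first | omega | (exact absurd hl (by norm_num))
      by_cases h23 : c 2 = 1 ∧ c 3 = 1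
      · exact hit_big e hl h hl17 ht h23
      · exact hit_small e hl h hl17 h23

/-- **HIT** -/
theorem hit : S_HIT := by
  intro l c e s c' e' hl h hs hnt hsp h' hs' _
  obtain ⟨K, hK, hpat⟩ := special_pats hsp h' hs'
  obtain ⟨k, hk, m, hm, hpm⟩ := nonspecial_meets hl h hs hnt K hK
  obtain ⟨n, hn, hpn⟩ := hpat k hk
  exact ⟨m, n, hm, hn, by rw [hpm, hpn]⟩

end Run7.h576.HU
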