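import Pool.Agent.Run7.h576.HU.Base

/-!
# Project HU (helper747), piece ZERO: a non-special local character has four consecutive values `1`
-/

set_option autoImplicit false

namespace Run7.h576.HU

open Run7.h747.HU

/-- `(l, n, x0, x1, x2, x3)` with `n + i` congruent to `x_i ^ 2` modulo `l` -/
def tab : List (ℕ × ℕ × ℕ × ℕ × ℕ × ℕ) :=
  [(19, 4, 2, 9, 5, 8), (23, 1, 1, 5, 7, 2), (29, 4, 2, 11, 8, 6),
   (31, 7, 10, 15, 3, 14), (37, 9, 3, 11, 14, 7), (43, 13, 20, 10, 12, 4),
   (47, 1, 1, 7, 12, 2), (59, 19, 14, 16, 27, 9), (61, 12, 16, 14, 21, 25),
   (67, 14, 9, 22, 4, 33), (71, 1, 1, 12, 28, 2), (73, 1, 1, 32, 21, 2),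
   (79, 8, 18, 3, 22, 13), (83, 9, 3, 33, 29, 26), (89, 8, 39, 3, 30, 10),
   (97, 1, 1, 14, 10, 2), (101, 19, 25, 11, 18, 27), (103, 13, 42, 23, 18, 4),
   (107, 9, 3, 44, 15, 36), (109, 25, 5, 35, 38, 30), (113, 13, 37, 50, 44, 4),
   (127, 15, 53, 4, 12, 48), (131, 33, 65, 54, 64, 6), (137, 14, 39, 17, 4, 47),
   (139, 4, 2, 12, 59, 29), (149, 4, 2, 68, 30, 56), (151, 8, 59, 3, 37, 39),
   (157, 9, 3, 18, 47, 13), (163, 33, 14, 69, 19, 6), (167, 1, 1, 13, 62, 2)]

def okay (l n x0 x1 x2 x3 : ℕ) : Bool :=
  (1 ≤ n) && (x0 ^ 2 % l == n % l) && (x1 ^ 2 % l == (n + 1) % l) && (x2 ^ 2 % l == (n + 2) % l) &&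
    (x3 ^ 2 % l == (n + 3) % l) && (n % l != 0) && ((n + 1) % l != 0) && ((n + 2) % l != 0) && ((n + 3) % l != 0)

set_option maxRecDepth 100000 in
theorem tab_ok : ∀ l ∈ List.range 168, 17 ≤ l → l % 2 ≠ 0 → l % 3 ≠ 0 → l % 5 ≠ 0 → l % 7 ≠ 0 → l % 11 ≠ 0 → l ∉ [17, 41, 53] →
    ∃ t ∈ tab, t.1 = l ∧ okay l t.2.1 t.2.2.1 t.2.2.2.1 t.2.2.2.2.1 t.2.2.2.2.2 = true := by
  decide

/-- the decision tree -/
theorem tree (c : ℕ → ℤˣ) (h1 : c 1 = 1)
    (hm : ∀ m n : ℕ, 1 ≤ m → 1 ≤ n → m * n ≤ 168 → c (m * n) = c m * c n) :
    ∃ a b : ℕ, 1 ≤ a ∧ 1 ≤ b ∧ a + 3 * b ≤ 168 ∧ ∀ i : ℕ, i < 4 → c b * c (a + i * b) = 1 := by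
  have f4 : c 4 = c 2 * c 2 := hm 2 2 (by norm_num) (by norm_num) (by norm_num)
  have f6 : c 6 = c 2 * c 3 := hm 2 3 (by norm_num) (by norm_num) (by norm_num)
  have f8 : c 8 = c 2 * c 4 := hm 2 4 (by norm_num) (by norm_num) (by norm_num)
  have f9 : c 9 = c 3 * c 3 := hm 3 3 (by norm_num) (by norm_num) (by norm_num)
  have f10 : c 10 = c 2 * c 5 := hm 2 5 (by norm_num) (by norm_num) (by norm_num)
  have f12 : c 12 = c 2 * c 6 := hm 2 6 (by norm_num) (by norm_num) (by norm_num)
  have f14 : c 14 = c 2 * c 7 := hm 2 7 (by norm_num) (by norm_num) (by norm_num)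
  have f15 : c 15 = c 3 * c 5 := hm 3 5 (by norm_num) (by norm_num) (by norm_num)
  have f16 : c 16 = c 2 * c 8 := hm 2 8 (by norm_num) (by norm_num) (by norm_num)
  have f18 : c 18 = c 2 * c 9 := hm 2 9 (by norm_num) (by norm_num) (by norm_num)
  have f20 : c 20 = c 2 * c 10 := hm 2 10 (by norm_num) (by norm_num) (by norm_num)
  have f21 : c 21 = c 3 * c 7 := hm 3 7 (by norm_num) (by norm_num) (by norm_num)
  have f22 : c 22 = c 2 * c 11 := hm 2 11 (by norm_num) (by norm_num) (by norm_num)
  have f24 : c 24 = c 2 * c 12 := hm 2 12 (by norm_num) (by norm_num) (by norm_num)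
  have f25 : c 25 = c 5 * c 5 := hm 5 5 (by norm_num) (by norm_num) (by norm_num)
  have f26 : c 26 = c 2 * c 13 := hm 2 13 (by norm_num) (by norm_num) (by norm_num)
  have f27 : c 27 = c 3 * c 9 := hm 3 9 (by norm_num) (by norm_num) (by norm_num)
  have f28 : c 28 = c 2 * c 14 := hm 2 14 (by norm_num) (by norm_num) (by norm_num)
  have f32 : c 32 = c 2 * c 16 := hm 2 16 (by norm_num) (by norm_num) (by norm_num)
  have f33 : c 33 = c 3 * c 11 := hm 3 11 (by norm_num) (by norm_num) (by norm_num)
  have f35 : c 35 = c 5 * c 7 := hm 5 7 (by norm_num) (by norm_num) (by norm_num)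
  have f36 : c 36 = c 2 * c 18 := hm 2 18 (by norm_num) (by norm_num) (by norm_num)
  have f38 : c 38 = c 2 * c 19 := hm 2 19 (by norm_num) (by norm_num) (by norm_num)
  have f39 : c 39 = c 3 * c 13 := hm 3 13 (by norm_num) (by norm_num) (by norm_num)
  have f40 : c 40 = c 2 * c 20 := hm 2 20 (by norm_num) (by norm_num) (by norm_num)
  have f42 : c 42 = c 2 * c 21 := hm 2 21 (by norm_num) (by norm_num) (by norm_num)
  have f44 : c 44 = c 2 * c 22 := hm 2 22 (by norm_num) (by norm_num) (by norm_num)
  have f45 : c 45 = c 3 * c 15 := hm 3 15 (by norm_num) (by norm_num) (by norm_num)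
  have f46 : c 46 = c 2 * c 23 := hm 2 23 (by norm_num) (by norm_num) (by norm_num)
  have f48 : c 48 = c 2 * c 24 := hm 2 24 (by norm_num) (by norm_num) (by norm_num)
  have f49 : c 49 = c 7 * c 7 := hm 7 7 (by norm_num) (by norm_num) (by norm_num)
  have f54 : c 54 = c 2 * c 27 := hm 2 27 (by norm_num) (by norm_num) (by norm_num)
  have f55 : c 55 = c 5 * c 11 := hm 5 11 (by norm_num) (by norm_num) (by norm_num)
  have f62 : c 62 = c 2 * c 31 := hm 2 31 (by norm_num) (by norm_num) (by norm_num)
  have f84 : c 84 = c 2 * c 42 := hm 2 42 (by norm_num) (by norm_num) (by norm_num)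
  have f108 : c 108 = c 2 * c 54 := hm 2 54 (by norm_num) (by norm_num) (by norm_num)
  have f115 : c 115 = c 5 * c 23 := hm 5 23 (by norm_num) (by norm_num) (by norm_num)
  have f161 : c 161 = c 7 * c 23 := hm 7 23 (by norm_num) (by norm_num) (by norm_num)
  have f168 : c 168 = c 2 * c 84 := hm 2 84 (by norm_num) (by norm_num) (by norm_num)
  rcases Int.units_eq_one_or (c 2) with s2 | s2
  · rcases Int.units_eq_one_or (c 3) with s3 | s3
    · refine ⟨1, 1, by norm_num, by norm_num, by norm_num, ?_⟩
      intro i hi
      interval_cases i <;> norm_num [h1, s2, s3, f4]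
    · rcases Int.units_eq_one_or (c 5) with s5 | s5
      · rcases Int.units_eq_one_or (c 7) with s7 | s7
        · refine ⟨7, 1, by norm_num, by norm_num, by norm_num, ?_⟩
          intro i hi
          interval_cases i <;> norm_num [h1, s7, f8, s2, f4, f9, s3, f10, s5]
        · rcases Int.units_eq_one_or (c 11) with s11 | s11
          · refine ⟨8, 1, by norm_num, by norm_num, by norm_num, ?_⟩
            intro i hi
            interval_cases i <;> norm_num [h1, f8, s2, f4, f9, s3, f10, s5, s11]
          · rcases Int.units_eq_one_or (c 13) with s13 | s13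
            · refine ⟨1, 4, by norm_num, by norm_num, by norm_num, ?_⟩
              intro i hi
              interval_cases i <;> norm_num [f4, s2, h1, s5, f9, s3, s13]
            · rcases Int.units_eq_one_or (c 17) with s17 | s17
              · refine ⟨1, 8, by norm_num, by norm_num, by norm_num, ?_⟩
                intro i hi
                interval_cases i <;> norm_num [f8, s2, f4, h1, f9, s3, s17, f25, s5]
              · rcases Int.units_eq_one_or (c 19) with s19 | s19
                · refine ⟨18, 1, by norm_num, by norm_num, by norm_num, ?_⟩
                  intro i hi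
                  interval_cases i <;> norm_num [h1, f18, s2, f9, s3, s19, f20, f10, s5, f21, s7]
                · rcases Int.units_eq_one_or (c 23) with s23 | s23
                  · rcases Int.units_eq_one_or (c 29) with s29 | s29
                    · refine ⟨21, 4, by norm_num, by norm_num, by norm_num, ?_⟩
                      intro i hi
                      interval_cases i <;> norm_num [f4, s2, f21, s3, s7, f25, s5, s29, f33, s11]
                    · rcases Int.units_eq_one_or (c 31) with s31 | s31
                      · rcases Int.units_eq_one_or (c 37) with s37 | s37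
                        · rcases Int.units_eq_one_or (c 41) with s41 | s41
                          · refine ⟨39, 1, by norm_num, by norm_num, by norm_num, ?_⟩
                            intro i hi
                            interval_cases i <;> norm_num [h1, f39, s3, s13, f40, s2, f20, f10, s5, s41, f42, f21, s7]
                          · refine ⟨35, 3, by norm_num, by norm_num, by norm_num, ?_⟩
                            intro i hi
                            interval_cases i <;> norm_num [s3, f35, s5, s7, f38, s2, s19, s41, f44, f22, s11]
                        · refine ⟨15, 11, by norm_num, by norm_num, by norm_num, ?_⟩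
                          intro i hi
                          interval_cases i <;> norm_num [s11, f15, s3, s5, f26, s2, s13, s37, f48, f24, f12, f6]
                      · refine ⟨17, 7, by norm_num, by norm_num, by norm_num, ?_⟩
                        intro i hi
                        interval_cases i <;> norm_num [s7, s17, f24, s2, f12, f6, s3, s31, f38, s19]
                  · refine ⟨13, 11, by norm_num, by norm_num, by norm_num, ?_⟩
                    intro i hi
                    interval_cases i <;> norm_num [s11, s13, f24, s2, f12, f6, s3, f35, s5, s7, f46, s23]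
      · rcases Int.units_eq_one_or (c 7) with s7 | s7
        · rcases Int.units_eq_one_or (c 11) with s11 | s11
          · refine ⟨1, 7, by norm_num, by norm_num, by norm_num, ?_⟩
            intro i hi
            interval_cases i <;> norm_num [s7, h1, f8, s2, f4, f15, s3, s5, f22, s11]
          · rcases Int.units_eq_one_or (c 13) with s13 | s13
            · refine ⟨13, 1, by norm_num, by norm_num, by norm_num, ?_⟩
              intro i hi
              interval_cases i <;> norm_num [h1, s13, f14, s2, s7, f15, s3, s5, f16, f8, f4]
            · refine ⟨18, 7, by norm_num, by norm_num, by norm_num, ?_⟩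
              intro i hi
              interval_cases i <;> norm_num [s7, f18, s2, f9, s3, f25, s5, f32, f16, f8, f4, f39, s13]
        · rcases Int.units_eq_one_or (c 11) with s11 | s11
          · rcases Int.units_eq_one_or (c 13) with s13 | s13
            · refine ⟨9, 2, by norm_num, by norm_num, by norm_num, ?_⟩
              intro i hi
              interval_cases i <;> norm_num [s2, f9, s3, s11, s13, f15, s5]
            · refine ⟨6, 7, by norm_num, by norm_num, by norm_num, ?_⟩
              intro i hi
              interval_cases i <;> norm_num [s7, f6, s2, s3, s13, f20, f10, s5, f27, f9]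
          · rcases Int.units_eq_one_or (c 13) with s13 | s13
            · rcases Int.units_eq_one_or (c 17) with s17 | s17
              · refine ⟨15, 1, by norm_num, by norm_num, by norm_num, ?_⟩
                intro i hi
                interval_cases i <;> norm_num [h1, f15, s3, s5, f16, s2, f8, f4, s17, f18, f9]
              · refine ⟨11, 3, by norm_num, by norm_num, by norm_num, ?_⟩
                intro i hi
                interval_cases i <;> norm_num [s3, s11, f14, s2, s7, s17, f20, f10, s5]
            · refine ⟨6, 7, by norm_num, by norm_num, by norm_num, ?_⟩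
              intro i hi
              interval_cases i <;> norm_num [s7, f6, s2, s3, s13, f20, f10, s5, f27, f9]
  · rcases Int.units_eq_one_or (c 3) with s3 | s3
    · rcases Int.units_eq_one_or (c 5) with s5 | s5
      · rcases Int.units_eq_one_or (c 7) with s7 | s7
        · rcases Int.units_eq_one_or (c 11) with s11 | s11
          · refine ⟨3, 4, by norm_num, by norm_num, by norm_num, ?_⟩
            intro i hi
            interval_cases i <;> norm_num [f4, s2, s3, s7, s11, f15, s5]
          · rcases Int.units_eq_one_or (c 13) with s13 | s13
            · refine ⟨1, 4, by norm_num, by norm_num, by norm_num, ?_⟩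
              intro i hi
              interval_cases i <;> norm_num [f4, s2, h1, s5, f9, s3, s13]
            · refine ⟨25, 1, by norm_num, by norm_num, by norm_num, ?_⟩
              intro i hi
              interval_cases i <;> norm_num [h1, f25, s5, f26, s2, s13, f27, s3, f9, f28, f14, s7]
        · rcases Int.units_eq_one_or (c 11) with s11 | s11
          · refine ⟨3, 11, by norm_num, by norm_num, by norm_num, ?_⟩
            intro i hi
            interval_cases i <;> norm_num [s11, s3, f14, s2, s7, f25, s5, f36, f18, f9]
          · rcases Int.units_eq_one_or (c 13) with s13 | s13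
            · refine ⟨1, 4, by norm_num, by norm_num, by norm_num, ?_⟩
              intro i hi
              interval_cases i <;> norm_num [f4, s2, h1, s5, f9, s3, s13]
            · refine ⟨2, 11, by norm_num, by norm_num, by norm_num, ?_⟩
              intro i hi
              interval_cases i <;> norm_num [s11, s2, s13, f24, f12, f6, s3, f35, s5, s7]
      · rcases Int.units_eq_one_or (c 7) with s7 | s7
        · refine ⟨1, 3, by norm_num, by norm_num, by norm_num, ?_⟩
          intro i hi
          interval_cases i <;> norm_num [s3, h1, f4, s2, s7, f10, s5]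
        · rcases Int.units_eq_one_or (c 11) with s11 | s11
          · refine ⟨9, 1, by norm_num, by norm_num, by norm_num, ?_⟩
            intro i hi
            interval_cases i <;> norm_num [h1, f9, s3, f10, s2, s5, s11, f12, f6]
          · rcases Int.units_eq_one_or (c 13) with s13 | s13
            · refine ⟨1, 13, by norm_num, by norm_num, by norm_num, ?_⟩
              intro i hi
              interval_cases i <;> norm_num [s13, h1, f14, s2, s7, f27, s3, f9, f40, f20, f10, s5]
            · rcases Int.units_eq_one_or (c 17) with s17 | s17
              · rcases Int.units_eq_one_or (c 19) with s19 | s19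
                · refine ⟨16, 3, by norm_num, by norm_num, by norm_num, ?_⟩
                  intro i hi
                  interval_cases i <;> norm_num [s3, f16, s2, f8, f4, s19, f22, s11, f25, s5]
                · refine ⟨6, 13, by norm_num, by norm_num, by norm_num, ?_⟩
                  intro i hi
                  interval_cases i <;> norm_num [s13, f6, s2, s3, s19, f32, f16, f8, f4, f45, f15, s5]
              · refine ⟨11, 2, by norm_num, by norm_num, by norm_num, ?_⟩
                intro i hi
                interval_cases i <;> norm_num [s2, s11, s13, f15, s3, s5, s17]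
    · rcases Int.units_eq_one_or (c 5) with s5 | s5
      · rcases Int.units_eq_one_or (c 7) with s7 | s7
        · refine ⟨4, 1, by norm_num, by norm_num, by norm_num, ?_⟩
          intro i hi
          interval_cases i <;> norm_num [h1, f4, s2, s5, f6, s3, s7]
        · rcases Int.units_eq_one_or (c 11) with s11 | s11
          · refine ⟨1, 5, by norm_num, by norm_num, by norm_num, ?_⟩
            intro i hi
            interval_cases i <;> norm_num [s5, h1, f6, s2, s3, s11, f16, f8, f4]
          · rcases Int.units_eq_one_or (c 13) with s13 | s13
            · refine ⟨1, 4, by norm_num, by norm_num, by norm_num, ?_⟩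
              intro i hi
              interval_cases i <;> norm_num [f4, s2, h1, s5, f9, s3, s13]
            · rcases Int.units_eq_one_or (c 17) with s17 | s17
              · refine ⟨1, 16, by norm_num, by norm_num, by norm_num, ?_⟩
                intro i hi
                interval_cases i <;> norm_num [f16, s2, f8, f4, h1, s17, f33, s3, s11, f49, s7]
              · refine ⟨11, 2, by norm_num, by norm_num, by norm_num, ?_⟩
                intro i hi
                interval_cases i <;> norm_num [s2, s11, s13, f15, s3, s5, s17]
      · rcases Int.units_eq_one_or (c 7) with s7 | s7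
        · rcases Int.units_eq_one_or (c 11) with s11 | s11
          · rcases Int.units_eq_one_or (c 13) with s13 | s13
            · rcases Int.units_eq_one_or (c 17) with s17 | s17
              · rcases Int.units_eq_one_or (c 19) with s19 | s19
                · refine ⟨7, 4, by norm_num, by norm_num, by norm_num, ?_⟩
                  intro i hi
                  interval_cases i <;> norm_num [f4, s2, s7, s11, f15, s3, s5, s19]
                · rcases Int.units_eq_one_or (c 23) with s23 | s23
                  · refine ⟨10, 13, by norm_num, by norm_num, by norm_num, ?_⟩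
                    intro i hi
                    interval_cases i <;> norm_num [s13, f10, s2, s5, s23, f36, f18, f9, s3, f49, s7]
                  · rcases Int.units_eq_one_or (c 29) with s29 | s29
                    · rcases Int.units_eq_one_or (c 31) with s31 | s31
                      · refine ⟨10, 7, by norm_num, by norm_num, by norm_num, ?_⟩
                        intro i hi
                        interval_cases i <;> norm_num [s7, f10, s2, s5, s17, f24, f12, f6, s3, s31]
                      · rcases Int.units_eq_one_or (c 37) with s37 | s37
                        · rcases Int.units_eq_one_or (c 41) with s41 | s41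
                          · refine ⟨15, 13, by norm_num, by norm_num, by norm_num, ?_⟩
                            intro i hi
                            interval_cases i <;> norm_num [s13, f15, s3, s5, f28, s2, f14, s7, s41, f54, f27, f9]
                          · rcases Int.units_eq_one_or (c 43) with s43 | s43
                            · rcases Int.units_eq_one_or (c 47) with s47 | s47
                              · rcases Int.units_eq_one_or (c 53) with s53 | s53
                                · refine ⟨9, 53, by norm_num, by norm_num, by norm_num, ?_⟩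
                                  intro i hi
                                  interval_cases i <;> norm_num [s53, f9, s3, f62, s2, s31, f115, s5, s23, f168, f84, f42, f21, s7]
                                · refine ⟨2, 53, by norm_num, by norm_num, by norm_num, ?_⟩
                                  intro i hi
                                  interval_cases i <;> norm_num [s53, s2, f55, s5, s11, f108, f54, f27, s3, f9, f161, s7, s23]
                              · refine ⟨23, 8, by norm_num, by norm_num, by norm_num, ?_⟩
                                intro i hi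
                                interval_cases i <;> norm_num [f8, s2, f4, s23, s31, f39, s3, s13, s47]
                            · refine ⟨19, 8, by norm_num, by norm_num, by norm_num, ?_⟩
                              intro i hi
                              interval_cases i <;> norm_num [f8, s2, f4, s19, f27, s3, f9, f35, s5, s7, s43]
                        · refine ⟨31, 2, by norm_num, by norm_num, by norm_num, ?_⟩
                          intro i hi
                          interval_cases i <;> norm_num [s2, s31, f33, s3, s11, f35, s5, s7, s37]
                    · refine ⟨20, 3, by norm_num, by norm_num, by norm_num, ?_⟩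
                      intro i hi
                      interval_cases i <;> norm_num [s3, f20, s2, f10, s5, s23, f26, s13, s29]
              · refine ⟨12, 5, by norm_num, by norm_num, by norm_num, ?_⟩
                intro i hi
                interval_cases i <;> norm_num [s5, f12, s2, f6, s3, s17, f22, s11, f27, f9]
            · refine ⟨3, 5, by norm_num, by norm_num, by norm_num, ?_⟩
              intro i hi
              interval_cases i <;> norm_num [s5, s3, f8, s2, f4, s13, f18, f9]
          · refine ⟨2, 3, by norm_num, by norm_num, by norm_num, ?_⟩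
            intro i hi
            interval_cases i <;> norm_num [s3, s2, s5, f8, f4, s11]
        · rcases Int.units_eq_one_or (c 11) with s11 | s11
          · rcases Int.units_eq_one_or (c 13) with s13 | s13
            · refine ⟨13, 1, by norm_num, by norm_num, by norm_num, ?_⟩
              intro i hi
              interval_cases i <;> norm_num [h1, s13, f14, s2, s7, f15, s3, s5, f16, f8, f4]
            · refine ⟨3, 5, by norm_num, by norm_num, by norm_num, ?_⟩
              intro i hi
              interval_cases i <;> norm_num [s5, s3, f8, s2, f4, s13, f18, f9]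
          · refine ⟨2, 3, by norm_num, by norm_num, by norm_num, ?_⟩
            intro i hi
            interval_cases i <;> norm_num [s3, s2, s5, f8, f4, s11]

theorem zero_small {l : ℕ} {c : ℕ → ℤˣ} (e : ℤˣ) (hl : l.Prime) (h : LC l c) (h17 : 17 ≤ l) (h168 : l < 168)
    (hn : l ∉ [17, 41, 53]) : ∃ n : ℕ, 1 ≤ n ∧ pat (loc l c e) n = 1 := by
  have hp : ∀ p : ℕ, 2 ≤ p → p < 17 → l % p ≠ 0 := by
    intro p hp hp' h0
    rcases (Nat.dvd_prime hl).mp (Nat.dvd_of_mod_eq_zero h0) with h1 | h1 <;> omega
  obtain ⟨t, _, ht1, ht⟩ := tab_ok l (List.mem_range.mpr h168) h17 (hp 2 (by norm_num) (by norm_num))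
    (hp 3 (by norm_num) (by norm_num)) (hp 5 (by norm_num) (by norm_num)) (hp 7 (by norm_num) (by norm_num))
    (hp 11 (by norm_num) (by norm_num)) hn
  obtain ⟨t0, n, x0, x1, x2, x3⟩ := t
  simp only [okay, Bool.and_eq_true, decide_eq_true_eq, beq_iff_eq, bne_iff_ne, ne_eq] at ht
  obtain ⟨⟨⟨⟨⟨⟨⟨⟨hn1, e0⟩, e1⟩, e2⟩, e3⟩, d0⟩, d1⟩, d2⟩, d3⟩ := ht
  have val : ∀ x m : ℕ, x ^ 2 % l = m % l → ¬ m % l = 0 → loc l c e m = 1 := by
    intro x m hx hm
    have hmd : ¬ l ∣ m := fun hd => hm (Nat.mod_eq_zero_of_dvd hd)
    have hxd : ¬ l ∣ x := by
      intro hd
      apply hm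
      rw [← hx]
      exact Nat.mod_eq_zero_of_dvd (dvd_pow hd (by norm_num))
    rw [loc_nd hmd, c_mod (by omega) h hmd hx.symm, pow_two, c_sq h hxd]
  refine ⟨n, hn1, ?_⟩
  rw [pat_eq_iff]
  exact ⟨val x0 n e0 d0, val x1 _ e1 d1, val x2 _ e2 d2, val x3 _ e3 d3⟩

theorem zero_large {l : ℕ} {c : ℕ → ℤˣ} (e : ℤˣ) (hl : l.Prime) (h : LC l c) (h168 : 168 < l) :
    ∃ n : ℕ, 1 ≤ n ∧ pat (loc l c e) n = 1 := by
  have hnd : ∀ m : ℕ, 1 ≤ m → m ≤ 168 → ¬ l ∣ m := by
    intro m h1 h2 hd
    have := Nat.le_of_dvd (by omega) hd
    omega
  have hm : ∀ m n : ℕ, 1 ≤ m → 1 ≤ n → m * n ≤ 168 → c (m * n) = c m * c n := by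
    intro m n h1 h2 h3
    have h4 : m ≤ 168 := le_trans (Nat.le_mul_of_pos_right m (by omega)) h3
    have h5 : n ≤ 168 := le_trans (Nat.le_mul_of_pos_left n (by omega)) h3
    exact h.mul m n (hnd m h1 h4) (hnd n h2 h5)
  obtain ⟨a, b, ha, hb, hab, hv⟩ := tree c (c_one hl h) hm
  obtain ⟨n, hn, hr⟩ := real (e := e) hl (by omega) h ha hb (by omega)
  refine ⟨n, hn, ?_⟩
  rw [pat_eq_iff]
  have key : ∀ i : ℕ, i < 4 → loc l c e (n + i) = 1 := by
    intro i hi
    rw [hr i hi, hv i hi]
  exact ⟨key 0 (by norm_num), key 1 (by norm_num), key 2 (by norm_num), key 3 (by norm_num)⟩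

theorem pat_congr {l : ℕ} {c c' : ℕ → ℤˣ} {e : ℤˣ} (hl : 2 ≤ l) (h : ∀ n, ¬ l ∣ n → c n = c' n) {n : ℕ}
    (hn : 1 ≤ n) : pat (loc l c e) n = pat (loc l c' e) n := by
  funext i
  exact loc_congr hl h (n + i) (by omega)

/-- **ZERO** -/
theorem zero : S_ZERO := by
  intro l c e hl h hs
  have hl2 : 2 ≤ l := hl.two_le
  by_cases ht : Tr l c
  · -- trivial character
    rcases Int.units_eq_one_or e with he | he
    · refine ⟨1, le_rfl, ?_⟩
      subst he
      rw [pat_eq_iff]
      exact ⟨loc_tr_one hl2 ht _ (by norm_num), loc_tr_one hl2 ht _ (by norm_num), loc_tr_one hl2 ht _ (by norm_num),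
        loc_tr_one hl2 ht _ (by norm_num)⟩
    · have hl2' : l ≠ 2 := by
        rintro rfl
        exact hs (Or.inl ⟨rfl, ht, he⟩)
      have hc : ∀ n, ¬ l ∣ n → c n = (fun _ => 1 : ℕ → ℤˣ) n := fun n hn => ht n hn
      by_cases h3 : l = 3
      · subst h3
        subst he
        refine ⟨7, by norm_num, ?_⟩
        rw [pat_congr (by norm_num) hc (by norm_num)]
        decide
      · have h5 : 5 ≤ l := by
          have h4 : l ≠ 4 := by
            rintro rfl
            exact absurd hl (by norm_num)
          omega
        refine ⟨1, le_rfl, ?_⟩
        rw [pat_eq_iff]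
        have key : ∀ m : ℕ, 1 ≤ m → m < 5 → loc l c e m = 1 := by
          intro m h1 h2
          have hd : ¬ l ∣ m := fun hd => by
            have := Nat.le_of_dvd (by omega) hd
            omega
          rw [loc_nd hd, ht m hd]
        exact ⟨key 1 (by norm_num) (by norm_num), key 2 (by norm_num) (by norm_num), key 3 (by norm_num) (by norm_num),
          key 4 (by norm_num) (by norm_num)⟩
  · by_cases h2 : l = 2
    · subst h2
      have hY := eq_Y h
      have h5 : c 5 = -1 := by
        rcases Int.units_eq_one_or (c 5) with h5 | h5
        · exfalso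
          rcases Int.units_eq_one_or (c 3) with h3 | h3
          · exact ht (tr_iff_Y h h3 h5)
          · exact hs (Or.inr (Or.inl ⟨rfl, h3, h5⟩))
        · exact h5
      rw [h5] at hY
      rcases Int.units_eq_one_or (c 3) with h3 | h3 <;> rw [h3] at hY <;>
        rcases Int.units_eq_one_or e with he | he <;> subst he
      · refine ⟨16, by norm_num, ?_⟩
        rw [pat_congr (by norm_num) hY (by norm_num)]
        decide
      · refine ⟨9, by norm_num, ?_⟩
        rw [pat_congr (by norm_num) hY (by norm_num)]
        decide
      · refine ⟨14, by norm_num, ?_⟩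
        rw [pat_congr (by norm_num) hY (by norm_num)]
        decide
      · refine ⟨22, by norm_num, ?_⟩
        rw [pat_congr (by norm_num) hY (by norm_num)]
        decide
    · by_cases hsp : l ∈ ({3, 5, 7, 11, 13, 53} : Finset ℕ)
      · exact absurd (Or.inr (Or.inr ⟨hsp, ht⟩)) hs
      · have hl17 : 17 ≤ l := by
          by_contra hlt
          have hlt' : l < 17 := by omega
          simp only [Finset.mem_insert, Finset.mem_singleton, not_or] at hsp
          interval_cases l <;> first | omega | (exact absurd hl (by norm_num))
        by_cases h168 : 168 < l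
        · exact zero_large e hl h h168
        · have hlt : l < 168 := by
            rcases Nat.lt_or_ge l 168 with h1 | h1
            · exact h1
            · have : l = 168 := by omega
              subst this
              exact absurd hl (by norm_num)
          by_cases hn : l ∈ [17, 41, 53]
          · have h53 : l ≠ 53 := by
              rintro rfl
              exact hsp (by decide)
            have hm : l ∈ [3, 5, 7, 11, 13, 17, 41, 53] := by
              simp only [List.mem_cons, List.not_mem_nil, or_false] at hn ⊢
              omega
            have hX := eq_X' hl hm h ht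
            have hl' : l = 17 ∨ l = 41 := by
              simp only [List.mem_cons, List.not_mem_nil, or_false] at hn
              omega
            rcases hl' with rfl | rfl <;> rcases Int.units_eq_one_or e with he | he <;> subst he
            · refine ⟨15, by norm_num, ?_⟩
              rw [pat_congr (by norm_num) hX (by norm_num)]
              decide
            · refine ⟨49, by norm_num, ?_⟩
              rw [pat_congr (by norm_num) hX (by norm_num)]
              decide
            · refine ⟨39, by norm_num, ?_⟩
              rw [pat_congr (by norm_num) hX (by norm_num)]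
              decide
            · refine ⟨121, by norm_num, ?_⟩
              rw [pat_congr (by norm_num) hX (by norm_num)]
              decide
          · exact zero_small e hl h hl17 hlt hn

end Run7.h576.HU
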